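import Pool.Agent.H970R2.X.Fin

set_option autoImplicit false

namespace Pool.Agent.Results.MP_a14ce1_nt.ResidueClassesBothSigns

open Finset Pool.Agent.H376R2.MR

/-- the number of `n ∈ [1, N]` with `n ≡ c mod q` is at most `N / q + 1` -/
lemma cls_le (q c : ℕ) (N : ℕ) :
    (((Icc 1 N).filter (fun n => n % q = c % q)).card : ℝ) ≤ N / q + 1 := by
  have h1 : ((Icc 1 N).filter (fun n => n % q = c % q)).card ≤ N / q + 1 := by
    have h2 : ((Icc 1 N).filter (fun n => n % q = c % q)).card ≤ (Finset.range (N / q + 1)).card := by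
      apply Finset.card_le_card_of_injOn (fun n => n / q)
      · intro n hn
        rw [Finset.mem_coe, mem_filter, mem_Icc] at hn
        rw [Finset.mem_coe, Finset.mem_range]
        exact Nat.lt_succ_of_le (Nat.div_le_div_right hn.1.2)
      · intro n hn m hm h
        rw [Finset.mem_coe, mem_filter, mem_Icc] at hn hm
        simp only at h
        have h3 := Nat.div_add_mod n q
        have h4 := Nat.div_add_mod m q
        rw [hn.2, h] at h3
        rw [hm.2] at h4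
        omega
    rwa [Finset.card_range] at h2
  have h2 : ((N / q : ℕ) : ℝ) ≤ (N : ℝ) / q := Nat.cast_div_le
  have h3 : (((Icc 1 N).filter (fun n => n % q = c % q)).card : ℝ) ≤ ((N / q + 1 : ℕ) : ℝ) := by
    exact_mod_cast h1
  push_cast at h3
  linarith

lemma sum_cls (q c : ℕ) (N : ℕ) (f : ℕ → ℤ) (hf : ∀ n, f n = 1 ∨ f n = -1) (t : ℝ)
    (h : ∀ σ : ℤ, (σ = 1 ∨ σ = -1) →
      t ≤ (((Icc 1 N).filter (fun n => n % q = c % q ∧ f n = σ)).card : ℝ)) :
    |∑ n ∈ (Icc 1 N).filter (fun n => n % q = c % q), (f n : ℝ)| ≤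
      (((Icc 1 N).filter (fun n => n % q = c % q)).card : ℝ) - 2 * t := by
  have h1 := h 1 (Or.inl rfl)
  have h2 := h (-1) (Or.inr rfl)
  rw [← Finset.filter_filter] at h1 h2
  set S := (Icc 1 N).filter (fun n => n % q = c % q) with hS
  have h3 : (S.filter (fun n => f n = 1)).card + (S.filter (fun n => f n = -1)).card = S.card := by
    have h4 := Finset.card_filter_add_card_filter_not (s := S) (fun n => f n = 1)
    have h5 : S.filter (fun n => ¬ f n = 1) = S.filter (fun n => f n = -1) := by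
      ext n
      simp only [mem_filter]
      constructor
      · rintro ⟨a, b⟩
        exact ⟨a, (hf n).resolve_left b⟩
      · rintro ⟨a, b⟩
        refine ⟨a, ?_⟩
        rw [b]; norm_num
    rw [h5] at h4
    exact h4
  have h6 : ∑ n ∈ S, (f n : ℝ) = ((S.filter (fun n => f n = 1)).card : ℝ) -
      ((S.filter (fun n => f n = -1)).card : ℝ) := by
    have h7 : ∀ n ∈ S, (f n : ℝ) = (if f n = 1 then (1 : ℝ) else 0) -
        (if f n = -1 then (1 : ℝ) else 0) := by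
      intro n _
      rcases hf n with h | h
      · rw [h]; norm_num
      · rw [h]; norm_num
    rw [Finset.sum_congr rfl h7, Finset.sum_sub_distrib, Finset.sum_boole, Finset.sum_boole]
  have h8 : ((S.filter (fun n => f n = 1)).card : ℝ) +
      ((S.filter (fun n => f n = -1)).card : ℝ) = S.card := by exact_mod_cast h3
  rw [h6, abs_le]
  constructor <;> linarith

/-- (1) For every finite nonempty family of pairwise non-proportional linear forms `a n + b` with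
`a ≥ 1`, every residue class `c mod q` and each sign `σ`, the `n ≡ c mod q` with
`∏ λ(a n + b) = σ` have positive lower density.
(2) In particular, for every `k ≥ 1` and every residue class, the sum of
`λ(n) λ(n+1) ⋯ λ(n+k-1)` over `n ≤ N`, `n ≡ c mod q`, is at most `(1 - δ) N / q` in absolute value
for all large `N`, with some `δ > 0`. -/
theorem result :
    (∀ S : Finset (ℕ × ℕ), S.Nonempty → (∀ f ∈ S, 0 < f.1) →
      (∀ f ∈ S, ∀ g ∈ S, f ≠ g → f.1 * g.2 ≠ g.1 * f.2) → ∀ q c : ℕ, 0 < q →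
      ∀ σ : ℤ, (σ = 1 ∨ σ = -1) → ∃ δ : ℝ, 0 < δ ∧ ∃ N₁ : ℕ, ∀ N : ℕ, N₁ ≤ N →
        δ * N ≤ (((Icc 1 N).filter (fun n => n % q = c % q ∧
          ∏ f ∈ S, (-1 : ℤ) ^ ArithmeticFunction.cardFactors (f.1 * n + f.2) = σ)).card : ℝ)) ∧
    (∀ k : ℕ, 0 < k → ∀ q c : ℕ, 0 < q → ∃ δ : ℝ, 0 < δ ∧ ∃ N₁ : ℕ, ∀ N : ℕ, N₁ ≤ N →
      |∑ n ∈ (Icc 1 N).filter (fun n => n % q = c % q),
        ∏ i ∈ Finset.range k, ((-1 : ℝ) ^ ArithmeticFunction.cardFactors (n + i))| ≤
      (1 - δ) * (N / q)) := by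
  have main : ∀ S : Finset (ℕ × ℕ), S.Nonempty → (∀ f ∈ S, 0 < f.1) →
      (∀ f ∈ S, ∀ g ∈ S, f ≠ g → f.1 * g.2 ≠ g.1 * f.2) → ∀ q c : ℕ, 0 < q →
      ∀ σ : ℤ, (σ = 1 ∨ σ = -1) → ∃ δ : ℝ, 0 < δ ∧ ∃ N₁ : ℕ, ∀ N : ℕ, N₁ ≤ N →
        δ * N ≤ (((Icc 1 N).filter (fun n => n % q = c % q ∧
          ∏ f ∈ S, (-1 : ℤ) ^ ArithmeticFunction.cardFactors (f.1 * n + f.2) = σ)).card : ℝ) := by
    intro S hS hpos hnp q c hq σ hσ
    obtain ⟨δ, N₁, hδ, h⟩ := Pool.Agent.H970R2.X.lam_class S hS hpos hnp q c hq σ hσ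
    exact ⟨δ, hδ, N₁, h⟩
  refine ⟨main, ?_⟩
  intro k hk q c hq
  have hinj : Function.Injective (fun i : ℕ => ((1, i) : ℕ × ℕ)) := fun a b h => (Prod.mk.inj h).2
  set S : Finset (ℕ × ℕ) := (Finset.range k).map ⟨_, hinj⟩ with hSdef
  have hS : S.Nonempty := by
    rw [hSdef, Finset.map_nonempty]
    exact ⟨0, Finset.mem_range.2 hk⟩
  have hpos : ∀ f ∈ S, 0 < f.1 := by
    intro f hf
    rw [hSdef, Finset.mem_map] at hf
    obtain ⟨i, _, rfl⟩ := hf
    exact Nat.one_pos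
  have hnp : ∀ f ∈ S, ∀ g ∈ S, f ≠ g → f.1 * g.2 ≠ g.1 * f.2 := by
    intro f hf g hg hne h
    rw [hSdef, Finset.mem_map] at hf hg
    obtain ⟨i, _, rfl⟩ := hf
    obtain ⟨j, _, rfl⟩ := hg
    apply hne
    simp only [Function.Embedding.coeFn_mk, one_mul] at h ⊢
    rw [h]
  obtain ⟨δ₁, hδ₁, N₁, h₁⟩ := main S hS hpos hnp q c hq 1 (Or.inl rfl)
  obtain ⟨δ₂, hδ₂, N₂, h₂⟩ := main S hS hpos hnp q c hq (-1) (Or.inr rfl)
  have hqR : (0 : ℝ) < q := by exact_mod_cast hq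
  set δ := min δ₁ δ₂ with hδdef
  have hδ : 0 < δ := lt_min hδ₁ hδ₂
  refine ⟨δ * q, by positivity, max (max N₁ N₂) ⌈1 / δ⌉₊, ?_⟩
  intro N hN
  have hN1 : N₁ ≤ N := le_trans (le_trans (le_max_left _ _) (le_max_left _ _)) hN
  have hN2 : N₂ ≤ N := le_trans (le_trans (le_max_right _ _) (le_max_left _ _)) hN
  have hN3 : 1 / δ ≤ N := by
    have h3 : 1 / δ ≤ (⌈1 / δ⌉₊ : ℝ) := Nat.le_ceil _
    have h4 : ((⌈1 / δ⌉₊ : ℕ) : ℝ) ≤ N := by exact_mod_cast le_trans (le_max_right _ _) hN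
    linarith
  have hN4 : 1 ≤ δ * N := by
    have h5 := mul_le_mul_of_nonneg_left hN3 hδ.le
    rwa [mul_one_div_cancel hδ.ne'] at h5
  have hf : ∀ n : ℕ, (∏ f ∈ S, (-1 : ℤ) ^ ArithmeticFunction.cardFactors (f.1 * n + f.2) = 1 ∨
      ∏ f ∈ S, (-1 : ℤ) ^ ArithmeticFunction.cardFactors (f.1 * n + f.2) = -1) := by
    intro n
    apply Finset.prod_induction _ (fun x : ℤ => x = 1 ∨ x = -1)
    · rintro a b (rfl | rfl) (rfl | rfl) <;> norm_num
    · exact Or.inl rfl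
    · intro f _
      exact neg_one_pow_eq_or ℤ _
  have key := sum_cls q c N
    (fun n => ∏ f ∈ S, (-1 : ℤ) ^ ArithmeticFunction.cardFactors (f.1 * n + f.2)) hf (δ * N) (by
      intro σ hσ
      rcases hσ with rfl | rfl
      · refine le_trans ?_ (h₁ N hN1)
        exact mul_le_mul_of_nonneg_right (min_le_left _ _) (Nat.cast_nonneg _)
      · refine le_trans ?_ (h₂ N hN2)
        exact mul_le_mul_of_nonneg_right (min_le_right _ _) (Nat.cast_nonneg _))
  have hcl := cls_le q c N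
  have heq : ∀ n : ℕ, ((∏ f ∈ S, (-1 : ℤ) ^ ArithmeticFunction.cardFactors (f.1 * n + f.2) : ℤ) : ℝ) =
      ∏ i ∈ Finset.range k, ((-1 : ℝ) ^ ArithmeticFunction.cardFactors (n + i)) := by
    intro n
    rw [hSdef, Finset.prod_map]
    push_cast
    refine Finset.prod_congr rfl fun i _ => ?_
    simp only [Function.Embedding.coeFn_mk, one_mul]
  rw [Finset.sum_congr rfl fun n _ => heq n] at key
  refine key.trans ?_
  have h9 : (1 - δ * q) * ((N : ℝ) / q) = N / q - δ * N := by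
    field_simp
  rw [h9]
  linarith

end Pool.Agent.Results.MP_a14ce1_nt.ResidueClassesBothSigns
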